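import Pool.Agent.helper95.FJ.SpecX

set_option autoImplicit false

namespace Pool.Agent.FJ

open Finset Pool.Agent.FI Pool.Agent.BP
open Pool.Agent.SCT (ff)
open Pool.Agent.FIP (cta)

theorem PAP (hPSV : Pool.Agent.FIP.PSV_stmt) (hPFA : Pool.Agent.FIP.PFA_stmt) (hPMW : PMW_stmt) : PAP_stmt := by
  classical
  obtain ⟨C₁, x₁, hC₁, h1⟩ := hPSV
  obtain ⟨C₂, hC₂, h2⟩ := hPFA
  obtain ⟨c, hc, h3⟩ := hPMW
  refine ⟨min (c / 2) ((c / 2) ^ 2 / (C₁ ^ 2 * C₂)), lt_min (by positivity) (by positivity), ?_⟩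
  intro η hη
  obtain ⟨x₂, h4⟩ := h3 η hη
  refine ⟨max (max x₁ x₂) 3, ?_⟩
  intro x hx A hA hAx
  have hxx1 : x₁ ≤ x := (le_max_left _ _).trans ((le_max_left _ _).trans hx)
  have hxx2 : x₂ ≤ x := (le_max_right _ _).trans ((le_max_left _ _).trans hx)
  have hx3 : 3 ≤ x := (le_max_right _ _).trans hx
  have hx3' : (3 : ℝ) ≤ (x : ℝ) := by exact_mod_cast hx3
  have hlog : 0 < Real.log (x : ℝ) := Real.log_pos (by linarith)
  set y : ℝ := (x : ℝ) / Real.log x ^ 2 with hy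
  have hy0 : 0 < y := by positivity
  have hA0 : (0 : ℝ) < (A : ℝ) := lt_of_lt_of_le (by positivity) hA
  set c₃ : ℝ := min (c / 2) ((c / 2) ^ 2 / (C₁ ^ 2 * C₂)) with hc₃
  have hc₃1 : c₃ ≤ c / 2 := min_le_left _ _
  have hc₃2 : c₃ ≤ (c / 2) ^ 2 / (C₁ ^ 2 * C₂) := min_le_right _ _
  have hmv := h4 x hxx2 A hA hAx
  have hmv' : c * (A * y) ≤ ∑ a ∈ (Icc 1 A).filter Odd, (cta x a : ℝ) := by
    refine le_trans (le_of_eq ?_) hmv
    rw [hy]
    ring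
  set O : Finset ℕ := (Icc 1 A).filter Odd with hO
  set G : Finset ℕ := O.filter (fun a => c₃ * y ≤ (cta x a : ℝ)) with hG
  have hOcard : (#O : ℝ) ≤ A := by
    have : #O ≤ A := by
      refine (card_filter_le _ _).trans ?_
      simp
    exact_mod_cast this
  have hsplit := Finset.sum_filter_add_sum_filter_not O (fun a => c₃ * y ≤ (cta x a : ℝ)) (fun a => (cta x a : ℝ))
  have hsmall : ∑ a ∈ O.filter (fun a => ¬ c₃ * y ≤ (cta x a : ℝ)), (cta x a : ℝ) ≤ c / 2 * (A * y) := by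
    calc ∑ a ∈ O.filter (fun a => ¬ c₃ * y ≤ (cta x a : ℝ)), (cta x a : ℝ)
        ≤ ∑ a ∈ O.filter (fun a => ¬ c₃ * y ≤ (cta x a : ℝ)), c / 2 * y := by
          refine sum_le_sum fun a ha => ?_
          have h5 := (mem_filter.1 ha).2
          have h6 := (not_le.1 h5).le
          exact h6.trans (mul_le_mul_of_nonneg_right hc₃1 hy0.le)
      _ = (#(O.filter (fun a => ¬ c₃ * y ≤ (cta x a : ℝ))) : ℝ) * (c / 2 * y) := by
          rw [sum_const, nsmul_eq_mul]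
      _ ≤ (A : ℝ) * (c / 2 * y) := by
          refine mul_le_mul_of_nonneg_right ?_ (by positivity)
          refine le_trans ?_ hOcard
          exact_mod_cast card_filter_le _ _
      _ = c / 2 * (A * y) := by ring
  have hbig : c / 2 * (A * y) ≤ ∑ a ∈ G, (cta x a : ℝ) := by
    linarith
  have hCS : (∑ a ∈ G, (cta x a : ℝ)) ^ 2 ≤ (#G : ℝ) * ∑ a ∈ G, (cta x a : ℝ) ^ 2 := sq_sum_le_card_mul_sum_sq
  have hsq : ∑ a ∈ G, (cta x a : ℝ) ^ 2 ≤ C₁ ^ 2 * y ^ 2 * (C₂ * A) := by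
    calc ∑ a ∈ G, (cta x a : ℝ) ^ 2 ≤ ∑ a ∈ G, C₁ ^ 2 * y ^ 2 * ff a ^ 4 := by
          refine sum_le_sum fun a ha => ?_
          have h5 := (mem_filter.1 ha).1
          obtain ⟨h6, h7⟩ := mem_filter.1 h5
          have h8 := h1 x hxx1 a h7 ((mem_Icc.1 h6).2.trans hAx)
          have h9 : (cta x a : ℝ) ≤ C₁ * y * ff a ^ 2 := by
            refine h8.trans (le_of_eq ?_)
            rw [hy]
            ring
          calc (cta x a : ℝ) ^ 2 ≤ (C₁ * y * ff a ^ 2) ^ 2 := pow_le_pow_left₀ (Nat.cast_nonneg _) h9 2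
            _ = C₁ ^ 2 * y ^ 2 * ff a ^ 4 := by ring
      _ = C₁ ^ 2 * y ^ 2 * ∑ a ∈ G, ff a ^ 4 := by rw [mul_sum]
      _ ≤ C₁ ^ 2 * y ^ 2 * ∑ a ∈ Icc 1 A, ff a ^ 4 := by
          refine mul_le_mul_of_nonneg_left ?_ (by positivity)
          refine sum_le_sum_of_subset_of_nonneg ?_ ?_
          · intro a ha
            exact (mem_filter.1 (mem_filter.1 ha).1).1
          · intro a _ _
            positivity
      _ ≤ C₁ ^ 2 * y ^ 2 * (C₂ * A) := mul_le_mul_of_nonneg_left (h2 A) (by positivity)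
  have hfin : (c / 2 * (A * y)) ^ 2 ≤ (#G : ℝ) * (C₁ ^ 2 * y ^ 2 * (C₂ * A)) := by
    calc (c / 2 * (A * y)) ^ 2 ≤ (∑ a ∈ G, (cta x a : ℝ)) ^ 2 := pow_le_pow_left₀ (by positivity) hbig 2
      _ ≤ (#G : ℝ) * ∑ a ∈ G, (cta x a : ℝ) ^ 2 := hCS
      _ ≤ _ := mul_le_mul_of_nonneg_left hsq (Nat.cast_nonneg _)
  have hGeq : (Icc 1 A).filter (fun a => Odd a ∧ c₃ * ((x : ℝ) / Real.log x ^ 2) ≤ (cta x a : ℝ)) = G := by
    ext a
    simp only [hG, hO, mem_filter, and_assoc, hy]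
  rw [hGeq]
  have hpos : 0 < C₁ ^ 2 * C₂ := by positivity
  have h10 : (c / 2) ^ 2 * A ≤ (#G : ℝ) * (C₁ ^ 2 * C₂) := by
    have hay : 0 < A * y ^ 2 := by positivity
    have h11 : ((c / 2) ^ 2 * A) * (A * y ^ 2) ≤ ((#G : ℝ) * (C₁ ^ 2 * C₂)) * (A * y ^ 2) := by
      calc ((c / 2) ^ 2 * A) * (A * y ^ 2) = (c / 2 * (A * y)) ^ 2 := by ring
        _ ≤ _ := hfin
        _ = _ := by ring
    exact le_of_mul_le_mul_right h11 hay
  calc c₃ * A ≤ (c / 2) ^ 2 / (C₁ ^ 2 * C₂) * A := mul_le_mul_of_nonneg_right hc₃2 hA0.le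
    _ = ((c / 2) ^ 2 * A) / (C₁ ^ 2 * C₂) := by ring
    _ ≤ (#G : ℝ) := by
        rw [div_le_iff₀ hpos]
        exact h10

end Pool.Agent.FJ
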