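import Pool.Agent.helper95.FJ.SpecD

/-! # Project fj (MP_ad8ced_nt), row PLX: Plancherel -/

set_option autoImplicit false

open Finset

noncomputable section

namespace Pool.Agent.FJ

open Pool.Agent.FI

theorem PLX_sum (D : ℕ) [NeZero D] (F : ZMod D → ℂ) (hF : ∀ a, ¬ IsUnit a → F a = 0) :
    ∑ ω ∈ range D with Nat.Coprime ω D, F (ω : ZMod D) = ∑ a : ZMod D, F a := by
  rw [Finset.sum_filter]
  have h1 : ∑ ω ∈ range D, (if Nat.Coprime ω D then F (ω : ZMod D) else 0) = ∑ ω ∈ range D, F (ω : ZMod D) := by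
    refine Finset.sum_congr rfl (fun ω _ => ?_)
    by_cases h : Nat.Coprime ω D
    · rw [if_pos h]
    · rw [if_neg h, hF _ (fun hu => h ((ZMod.isUnit_iff_coprime ω D).1 hu))]
  rw [h1]
  refine Finset.sum_nbij' (fun ω => (ω : ZMod D)) (fun a => a.val) ?_ ?_ ?_ ?_ ?_
  · intro ω _
    exact Finset.mem_univ _
  · intro a _
    exact Finset.mem_range.2 (ZMod.val_lt a)
  · intro ω hω
    exact ZMod.val_natCast_of_lt (Finset.mem_range.1 hω)
  · intro a _
    exact ZMod.natCast_zmod_val a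
  · intro ω _
    rfl

open scoped Classical in
theorem PLX_orth (D : ℕ) [NeZero D] (χ χ' : DirichletCharacter ℂ D) :
    ∑ ω ∈ range D with Nat.Coprime ω D, χ (ω : ZMod D) * (starRingEnd ℂ) (χ' (ω : ZMod D)) =
      if χ = χ' then (Nat.totient D : ℂ) else 0 := by
  have h1 : ∀ a : ZMod D, χ a * (starRingEnd ℂ) (χ' a) = (χ * χ'⁻¹) a := by
    intro a
    rw [MulChar.mul_apply]
    congr 1
    exact MulChar.star_apply' χ' a
  rw [PLX_sum D (fun a => χ a * (starRingEnd ℂ) (χ' a)) (by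
    intro a ha
    show χ a * (starRingEnd ℂ) (χ' a) = 0
    rw [MulChar.map_nonunit χ ha, zero_mul])]
  rw [Finset.sum_congr rfl (fun a _ => h1 a)]
  by_cases h : χ = χ'
  · rw [if_pos h, h, mul_inv_cancel, MulChar.sum_one_eq_card_units, ZMod.card_units_eq_totient]
  · rw [if_neg h]
    apply MulChar.sum_eq_zero_of_ne_one
    intro h2
    exact h (mul_inv_eq_one.1 h2)

open scoped Classical in
theorem PLX_pars (D : ℕ) [NeZero D] (X : Finset (DirichletCharacter ℂ D)) (G : DirichletCharacter ℂ D → ℂ) :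
    ∑ ω ∈ range D with Nat.Coprime ω D, ‖∑ χ ∈ X, (starRingEnd ℂ) (χ (ω : ZMod D)) * G χ‖ ^ 2 =
      (Nat.totient D : ℝ) * ∑ χ ∈ X, ‖G χ‖ ^ 2 := by
  apply Complex.ofReal_injective
  rw [Complex.ofReal_sum]
  have h1 : ∀ ω ∈ (range D).filter (fun ω => Nat.Coprime ω D),
      ((‖∑ χ ∈ X, (starRingEnd ℂ) (χ (ω : ZMod D)) * G χ‖ ^ 2 : ℝ) : ℂ) =
      ∑ χ ∈ X, ∑ χ' ∈ X, ((starRingEnd ℂ) (G χ) * G χ') * (χ (ω : ZMod D) * (starRingEnd ℂ) (χ' (ω : ZMod D))) := by
    intro ω _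
    rw [Complex.ofReal_pow, ← Complex.conj_mul', map_sum, Finset.sum_mul_sum]
    refine Finset.sum_congr rfl (fun χ _ => Finset.sum_congr rfl (fun χ' _ => ?_))
    rw [map_mul, Complex.conj_conj]
    ring
  rw [Finset.sum_congr rfl h1, Finset.sum_comm, Complex.ofReal_mul, Complex.ofReal_sum, Finset.mul_sum]
  refine Finset.sum_congr rfl (fun χ hχ => ?_)
  rw [Finset.sum_comm]
  have h2 : ∀ χ' ∈ X, ∑ ω ∈ range D with Nat.Coprime ω D,
      ((starRingEnd ℂ) (G χ) * G χ') * (χ (ω : ZMod D) * (starRingEnd ℂ) (χ' (ω : ZMod D))) =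
      if χ = χ' then ((starRingEnd ℂ) (G χ) * G χ') * (Nat.totient D : ℂ) else 0 := by
    intro χ' _
    rw [← Finset.mul_sum, PLX_orth D χ χ']
    split_ifs
    · rfl
    · rw [mul_zero]
  rw [Finset.sum_congr rfl h2, Finset.sum_ite_eq, if_pos hχ, Complex.conj_mul']
  push_cast
  ring

open scoped Classical in
theorem PLX : PLX_stmt := by
  refine ⟨?_, ?_⟩
  · intro x K₃ K₄ R₁ lam b m D hD
    have : NeZero D := ⟨by omega⟩
    have hφ : (Nat.totient D : ℝ) ≠ 0 := by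
      have := Nat.totient_pos.2 hD
      exact_mod_cast this.ne'
    have h1 : ∀ ω ∈ (range D).filter (fun ω => Nat.Coprime ω D),
        EgL x K₃ K₄ R₁ lam b m D (ω : ℤ) ^ 2 = (1 / (Nat.totient D : ℝ)) ^ 2 *
        ‖∑ χ : DirichletCharacter ℂ D with R₁ < χ.conductor,
          (starRingEnd ℂ) (χ (ω : ZMod D)) * Gc x K₃ K₄ lam b m χ‖ ^ 2 := by
      intro ω _
      unfold EgL
      rw [norm_mul, mul_pow]
      congr 1
      · rw [norm_div, norm_one, Complex.norm_natCast]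
      · simp only [Int.cast_natCast]
    rw [Finset.sum_congr rfl h1, ← Finset.mul_sum,
      PLX_pars D (Finset.univ.filter (fun χ : DirichletCharacter ℂ D => R₁ < χ.conductor))
        (fun χ => Gc x K₃ K₄ lam b m χ)]
    field_simp
  · intro x K₃ K₄ R₁ lam b m D ω ω' h
    have h1 : (ω : ZMod D) = (ω' : ZMod D) := by
      have h2 : ((ω - ω' : ℤ) : ZMod D) = 0 := (ZMod.intCast_zmod_eq_zero_iff_dvd _ D).2 h
      push_cast at h2
      exact sub_eq_zero.1 h2
    unfold EgL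
    rw [h1]

end Pool.Agent.FJ
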