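import Pool.Agent.helper95.FJ.SpecE

/-! # Project fj (MP_ad8ced_nt), row ROO: the number of roots -/

set_option autoImplicit false

open Finset

noncomputable section

namespace Pool.Agent.FJ

open Pool.Agent.FI

theorem ROO_gcd (q a b : ℤ) (h : q ∣ a * b) : q ∣ ((Int.gcd q a : ℕ) : ℤ) * b := by
  rw [Int.gcd_eq_gcd_ab q a, add_mul]
  apply dvd_add
  · exact Dvd.dvd.mul_right (Dvd.intro _ rfl) _
  · have e : a * Int.gcdB q a * b = (a * b) * Int.gcdB q a := by ring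
    rw [e]
    exact Dvd.dvd.mul_right h _

theorem ROO_inj (q : ℕ) (hq : Odd q) (r a b : ℤ) (hr : (q : ℤ) ∣ r ^ 2 - 8) (ha : (q : ℤ) ∣ a ^ 2 - 8)
    (hb : (q : ℤ) ∣ b ^ 2 - 8) (h : Int.gcd (q : ℤ) (a - r) = Int.gcd (q : ℤ) (b - r)) : (q : ℤ) ∣ a - b := by
  obtain ⟨e, he⟩ : Int.gcd (q : ℤ) (a - r) ∣ q := by
    have := Int.gcd_dvd_left (q : ℤ) (a - r)
    exact_mod_cast this
  have hd0 : 0 < Int.gcd (q : ℤ) (a - r) := by
    apply Nat.pos_of_ne_zero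
    intro h0
    rw [h0, zero_mul] at he
    rw [he] at hq
    simp at hq
  have key : ∀ c : ℤ, (q : ℤ) ∣ c ^ 2 - 8 → Int.gcd (q : ℤ) (c - r) = Int.gcd (q : ℤ) (a - r) → (e : ℤ) ∣ c + r := by
    intro c hc hgc
    have h1 : (q : ℤ) ∣ (c - r) * (c + r) := by
      have e1 : (c - r) * (c + r) = (c ^ 2 - 8) - (r ^ 2 - 8) := by ring
      rw [e1]
      exact dvd_sub hc hr
    have h2 := ROO_gcd (q : ℤ) (c - r) (c + r) h1
    rw [hgc] at h2
    have h3 : (q : ℤ) = ((Int.gcd (q : ℤ) (a - r) : ℕ) : ℤ) * (e : ℤ) := by exact_mod_cast he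
    rw [h3] at h2
    have h4 : ((Int.gcd (q : ℤ) (a - r) : ℕ) : ℤ) ≠ 0 := by exact_mod_cast hd0.ne'
    have h5 : ((Int.gcd (q : ℤ) (a - r) : ℕ) : ℤ) * (e : ℤ) ∣
        ((Int.gcd (((Int.gcd (q : ℤ) (a - r) : ℕ) : ℤ) * (e : ℤ)) (a - r) : ℕ) : ℤ) * (c + r) := h2
    rw [← h3] at h5
    exact Int.dvd_of_mul_dvd_mul_left h4 (by
      have h6 : (q : ℤ) ∣ ((Int.gcd (q : ℤ) (a - r) : ℕ) : ℤ) * (c + r) := h5
      have h7 : ((Int.gcd (q : ℤ) (a - r) : ℕ) : ℤ) * (e : ℤ) = q := h3.symm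
      rw [h7]
      exact h6)
  have hea := key a ha rfl
  have heb := key b hb h.symm
  have hda : ((Int.gcd (q : ℤ) (a - r) : ℕ) : ℤ) ∣ a - r := Int.gcd_dvd_right (q : ℤ) (a - r)
  have hdb : ((Int.gcd (q : ℤ) (a - r) : ℕ) : ℤ) ∣ b - r := by
    rw [h]
    exact Int.gcd_dvd_right (q : ℤ) (b - r)
  have hcop : Nat.Coprime (Int.gcd (q : ℤ) (a - r)) e := by
    apply Nat.coprime_of_dvd
    intro p hp hp1 hp2
    have hpq : p ∣ q := by
      rw [he]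
      exact Dvd.dvd.mul_right hp1 _
    have a1 : (p : ℤ) ∣ a - r := (Int.natCast_dvd_natCast.2 hp1).trans hda
    have a2 : (p : ℤ) ∣ a + r := (Int.natCast_dvd_natCast.2 hp2).trans hea
    have a3 : (p : ℤ) ∣ r ^ 2 - 8 := (Int.natCast_dvd_natCast.2 hpq).trans hr
    have a4 : (p : ℤ) ∣ 32 := by
      have e1 : (32 : ℤ) = ((a + r) - (a - r)) * ((a + r) - (a - r)) - 4 * (r ^ 2 - 8) := by ring
      rw [e1]
      exact dvd_sub (Dvd.dvd.mul_right (dvd_sub a2 a1) _) (Dvd.dvd.mul_left a3 _)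
    have a5 : p ∣ 2 ^ 5 := by
      have : (p : ℤ) ∣ ((2 ^ 5 : ℕ) : ℤ) := by simpa using a4
      exact_mod_cast this
    have a6 : p ∣ 2 := hp.dvd_of_dvd_pow a5
    have a7 : p = 2 := (Nat.prime_dvd_prime_iff_eq hp Nat.prime_two).1 a6
    rw [a7] at hpq
    obtain ⟨k, hk⟩ := hq
    omega
  have h3 : (q : ℤ) = ((Int.gcd (q : ℤ) (a - r) : ℕ) : ℤ) * (e : ℤ) := by exact_mod_cast he
  have hcop' : IsCoprime ((Int.gcd (q : ℤ) (a - r) : ℕ) : ℤ) (e : ℤ) := Nat.isCoprime_iff_coprime.2 hcop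
  have h8 : ((Int.gcd (q : ℤ) (a - r) : ℕ) : ℤ) * (e : ℤ) ∣ a - b := by
    apply hcop'.mul_dvd
    · have e1 : a - b = (a - r) - (b - r) := by ring
      rw [e1]
      exact dvd_sub hda hdb
    · have e1 : a - b = (a + r) - (b + r) := by ring
      rw [e1]
      exact dvd_sub hea heb
  calc (q : ℤ) = ((Int.gcd (q : ℤ) (a - r) : ℕ) : ℤ) * (e : ℤ) := h3
    _ ∣ a - b := h8

theorem ROO : ROO_stmt := by
  intro q hq
  unfold rt
  obtain ⟨X, hX⟩ : ∃ X : Finset ℕ, X = (range q).filter fun ν : ℕ => (q : ℤ) ∣ (ν : ℤ) ^ 2 - 8 := ⟨_, rfl⟩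
  rw [← hX]
  have hm : ∀ ν ∈ X, ν < q ∧ (q : ℤ) ∣ (ν : ℤ) ^ 2 - 8 := by
    intro ν hν
    rw [hX, mem_filter, mem_range] at hν
    exact hν
  rcases X.eq_empty_or_nonempty with h0 | ⟨r, hr⟩
  · rw [h0]
    simp
  · have hq0 : q ≠ 0 := by
      have := (hm r hr).1
      omega
    apply Finset.card_le_card_of_injOn (fun ν : ℕ => Int.gcd (q : ℤ) ((ν : ℤ) - r))
    · intro ν _
      rw [Finset.mem_coe, Nat.mem_divisors]
      refine ⟨?_, hq0⟩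
      have := Int.gcd_dvd_left (q : ℤ) ((ν : ℤ) - r)
      exact_mod_cast this
    · intro a ha b hb hab
      obtain ⟨a1, a2⟩ := hm a ha
      obtain ⟨b1, b2⟩ := hm b hb
      have h1 := ROO_inj q hq r a b (hm r hr).2 a2 b2 hab
      have h2 : ((a : ℤ) - b) = 0 := by
        apply Int.eq_zero_of_abs_lt_dvd h1
        rw [abs_lt]
        constructor <;> omega
      omega

end Pool.Agent.FJ
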